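import Mathlib

namespace Pool.Agent.Results.MP_b9311c_al.CSA
open Matrix
open scoped PowerSeries.WithPiTopology

/-- The subgroup `H` is abelian. -/
def Ab {G : Type} [Group G] (H : Subgroup G) : Prop := ∀ x ∈ H, ∀ y ∈ H, x * y = y * x

/-- Every maximal abelian subgroup is malnormal. -/
def IsCSA (G : Type) [Group G] : Prop :=
  ∀ H : Subgroup G, Maximal Ab H → ∀ g, g ∉ H → H ⊓ H.map (MulAut.conj g).toMonoidHom = ⊥

/-- All quotients by open normal subgroups are `p`-groups. -/
def ProP (p : ℕ) (G : Type) [Group G] [TopologicalSpace G] : Prop :=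
  ∀ N : OpenNormalSubgroup G, IsPGroup p (G ⧸ N.toSubgroup)

section
variable {R : Type} [CommRing R]

lemma comm_iff (x y : SpecialLinearGroup (Fin 2) R) : x * y = y * x ↔
    x 0 1 * y 1 0 = x 1 0 * y 0 1 ∧ y 0 1 * (x 0 0 - x 1 1) = x 0 1 * (y 0 0 - y 1 1) ∧
      y 1 0 * (x 0 0 - x 1 1) = x 1 0 * (y 0 0 - y 1 1) := by
  constructor
  · intro h
    have h00 := congrArg (fun m : SpecialLinearGroup (Fin 2) R => m 0 0) h
    have h01 := congrArg (fun m : SpecialLinearGroup (Fin 2) R => m 0 1) h
    have h10 := congrArg (fun m : SpecialLinearGroup (Fin 2) R => m 1 0) h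
    simp [mul_apply, Fin.sum_univ_two] at h00 h01 h10
    exact ⟨by linear_combination h00, by linear_combination h01, by linear_combination -h10⟩
  · rintro ⟨h1, h2, h3⟩
    ext i j
    fin_cases i <;> fin_cases j <;> simp [mul_apply, Fin.sum_univ_two]
    · linear_combination h1
    · linear_combination h2
    · linear_combination -h3
    · linear_combination -h1

lemma ca [IsDomain R] (h2 : (2 : R) = 0) {x y z : SpecialLinearGroup (Fin 2) R} (hx : x ≠ 1)
    (hy : x * y = y * x) (hz : x * z = z * x) : y * z = z * y := by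
  obtain ⟨a1, a2, a3⟩ := (comm_iff x y).1 hy
  obtain ⟨b1, b2, b3⟩ := (comm_iff x z).1 hz
  rw [comm_iff]
  by_cases hb : x 0 1 = 0
  · by_cases hc : x 1 0 = 0
    · have hd : x 0 0 - x 1 1 ≠ 0 := by
        intro hd
        have hdet := x.det_coe
        rw [det_fin_two] at hdet
        have h11 : x 1 1 = x 0 0 := by linear_combination -hd
        have : (x 0 0 - 1) ^ 2 = 0 := by
          have e : x.1 0 0 * x.1 1 1 - x.1 0 1 * x.1 1 0 = x 0 0 * x 1 1 - x 0 1 * x 1 0 := rfl
          rw [e, hb, h11] at hdet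
          linear_combination hdet + (1 - x 0 0) * h2
        have h00 : x 0 0 = 1 := by linear_combination pow_eq_zero_iff (two_ne_zero) |>.1 this
        apply hx
        ext i j
        fin_cases i <;> fin_cases j <;> simp [hb, hc, h11, h00]
      refine ⟨mul_left_cancel₀ hd ?_, mul_left_cancel₀ hd ?_, mul_left_cancel₀ hd ?_⟩
      · linear_combination z 1 0 * a2 - y 1 0 * b2 + (z 1 0 * (y 0 0 - y 1 1) - y 1 0 * (z 0 0 - z 1 1)) * hb
      · linear_combination (y 0 0 - y 1 1) * b2 - (z 0 0 - z 1 1) * a2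
      · linear_combination (y 0 0 - y 1 1) * b3 - (z 0 0 - z 1 1) * a3
    · have g3 : z 1 0 * (y 0 0 - y 1 1) = y 1 0 * (z 0 0 - z 1 1) :=
        mul_left_cancel₀ hc (by linear_combination y 1 0 * b3 - z 1 0 * a3)
      refine ⟨mul_left_cancel₀ hc ?_, mul_left_cancel₀ hc ?_, g3⟩
      · linear_combination y 1 0 * b1 - z 1 0 * a1
      · linear_combination (z 0 0 - z 1 1) * a1 - (y 0 0 - y 1 1) * b1 + x 0 1 * g3
  · have g2 : z 0 1 * (y 0 0 - y 1 1) = y 0 1 * (z 0 0 - z 1 1) :=
      mul_left_cancel₀ hb (by linear_combination y 0 1 * b2 - z 0 1 * a2)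
    refine ⟨mul_left_cancel₀ hb ?_, g2, mul_left_cancel₀ hb ?_⟩
    · linear_combination y 0 1 * b1 - z 0 1 * a1
    · linear_combination (y 0 0 - y 1 1) * b1 - (z 0 0 - z 1 1) * a1 + x 1 0 * g2

lemma det_mul (y z : SpecialLinearGroup (Fin 2) R) (h : y * z = z * y)
    (ht : trace y.1 = trace z.1) : (z.1 - y.1).det * (z.1 - (y⁻¹).1).det = 0 := by
  obtain ⟨h1, h2, h3⟩ := (comm_iff y z).1 h
  have dy := y.det_coe
  have dz := z.det_coe
  rw [det_fin_two] at dy dz
  rw [trace_fin_two, trace_fin_two] at ht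
  have : (z.1 - y.1) * (z.1 - (y⁻¹).1) = 0 := by
    ext i j
    fin_cases i <;> fin_cases j <;> simp [mul_apply, Fin.sum_univ_two, adjugate_fin_two]
    · linear_combination -z 0 0 * ht + dy - dz - h1
    · linear_combination -z 0 1 * ht - h2
    · linear_combination -z 1 0 * ht + h3
    · linear_combination -z 1 1 * ht + dy - dz + h1
  rw [← Matrix.det_mul, this, det_zero]

/-- The norm one group of the maximal order of a quaternion algebra. -/
def grp (σ : R →+* R) (t : R) (hσ : ∀ a, σ (σ a) = a) (ht : σ t = t) :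
    Subgroup (SpecialLinearGroup (Fin 2) R) where
  carrier := {m | m 1 1 = σ (m 0 0) ∧ m 0 1 = t * σ (m 1 0)}
  one_mem' := by simp
  mul_mem' := by
    rintro m n ⟨h1, h2⟩ ⟨h3, h4⟩
    constructor <;> simp [mul_apply, Fin.sum_univ_two, h1, h2, h3, h4, hσ, ht] <;> ring
  inv_mem' := by
    rintro m ⟨h1, h2⟩
    constructor <;> simp [adjugate_fin_two, h1, h2, hσ]

lemma csa [IsDomain R] (h2 : (2 : R) = 0) (σ : R →+* R) (t : R) (hσ : ∀ a, σ (σ a) = a)
    (ht : σ t = t) (han : ∀ a b, a * σ a = t * (b * σ b) → a = 0 ∧ b = 0) :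
    IsCSA (grp σ t hσ ht) := by
  have e : ∀ y z : grp σ t hσ ht, (z.1.1 - y.1.1).det = 0 → z = y := by
    rintro ⟨y, h1, h2⟩ ⟨z, h3, h4⟩ h
    rw [det_fin_two] at h
    simp only [Matrix.sub_apply] at h
    obtain ⟨h5, h6⟩ := han (z 0 0 - y 0 0) (z 1 0 - y 1 0) (by
      rw [map_sub, map_sub, ← h1, ← h3]
      linear_combination h + (z 1 0 - y 1 0) * (h4 - h2))
    rw [sub_eq_zero] at h5 h6
    ext i j
    fin_cases i <;> fin_cases j <;> simp [h1, h2, h3, h4, h5, h6]
  have e2 : ∀ y z : grp σ t hσ ht, y * z = z * y → trace y.1.1 = trace z.1.1 →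
      z = y ∨ z = y⁻¹ := fun y z h h' =>
    (mul_eq_zero.1 (det_mul y.1 z.1 (congrArg Subtype.val h) h')).imp (e y z) (e y⁻¹ z)
  have c : ∀ x y z : grp σ t hσ ht, x ≠ 1 → x * y = y * x → x * z = z * x → y * z = z * y :=
    fun x y z hx hy hz => Subtype.ext (ca h2 (fun h => hx (Subtype.ext h))
      (congrArg Subtype.val hy) (congrArg Subtype.val hz))
  have inv : ∀ y : grp σ t hσ ht, y * y = 1 → y = 1 := by
    intro y hy
    have h1 : y⁻¹ = y := inv_eq_of_mul_eq_one_right hy
    have h3 : y.1 1 1 = y.1 0 0 := by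
      simpa [adjugate_fin_two] using congrArg (fun m : grp σ t hσ ht => m.1 0 0) h1
    rcases e2 y 1 (by simp) (by
      rw [trace_fin_two, trace_fin_two]
      simp only [OneMemClass.coe_one, Matrix.SpecialLinearGroup.coe_one, one_apply_eq]
      linear_combination h3 + (y.1 0 0 - 1) * h2) with h | h
    · exact h.symm
    · rw [← h1, ← h]
  intro H hH g hg
  rw [eq_bot_iff]
  rintro y ⟨hy, z, hz, hzy⟩
  by_contra hy1
  rw [Subgroup.mem_bot] at hy1
  change g * z * g⁻¹ = y at hzy
  have hgy : y * g = g * y := by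
    have htr : trace y.1.1 = trace z.1.1 := by
      rw [← hzy]
      simp only [Subgroup.coe_mul, Matrix.SpecialLinearGroup.coe_mul]
      rw [trace_mul_cycle, ← Matrix.SpecialLinearGroup.coe_mul, ← Subgroup.coe_mul, inv_mul_cancel]
      simp
    rcases e2 y z (hH.1 y hy z hz) htr with h | h
    · subst h
      rw [mul_inv_eq_iff_eq_mul] at hzy
      exact hzy.symm
    · by_cases hg2 : g * g = 1
      · simp [inv g hg2]
      · refine c (g * g) _ _ hg2 ?_ (by group)
        have h1 : g * y⁻¹ * g⁻¹ = y := h ▸ hzy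
        have h3 : g * y * g⁻¹ = y⁻¹ := by rw [← _root_.inv_inj, inv_inv, ← h1, h1]; simpa [mul_assoc] using h1
        calc g * g * y = g * (g * y * g⁻¹) * g⁻¹ * (g * g) := by group
          _ = _ := by rw [h3, h1]
  have hle : H ≤ Subgroup.centralizer {y} := fun x hx =>
    Subgroup.mem_centralizer_singleton_iff.2 (hH.1 x hx y hy)
  have hab : Ab (Subgroup.centralizer {y}) := fun a ha b hb =>
    c y a b hy1 (Subgroup.mem_centralizer_singleton_iff.1 ha).symm
      (Subgroup.mem_centralizer_singleton_iff.1 hb).symm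
  exact hg (hH.2 hab hle (Subgroup.mem_centralizer_singleton_iff.2 hgy.symm))
end

theorem result : ∃ (G : Type) (_ : Group G) (_ : TopologicalSpace G), IsTopologicalGroup G ∧
    CompactSpace G ∧ T2Space G ∧ TotallyDisconnectedSpace G ∧ (∃ x y : G, x * y ≠ y * x) ∧
    IsCSA G ∧ ∀ p : ℕ, p.Prime → ¬ ProP p G := by
  let K := GaloisField 2 2
  let _ : TopologicalSpace K := ⊥
  have : DiscreteTopology K := ⟨rfl⟩
  have : IsTopologicalRing K := inferInstance
  have : CompactSpace (PowerSeries K) := inferInstanceAs (CompactSpace ((Unit →₀ ℕ) → K))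
  have : TotallyDisconnectedSpace (PowerSeries K) :=
    inferInstanceAs (TotallyDisconnectedSpace ((Unit →₀ ℕ) → K))
  have : CompactSpace (Matrix (Fin 2) (Fin 2) (PowerSeries K)) :=
    inferInstanceAs (CompactSpace (Fin 2 → Fin 2 → PowerSeries K))
  have : TotallyDisconnectedSpace (Matrix (Fin 2) (Fin 2) (PowerSeries K)) :=
    inferInstanceAs (TotallyDisconnectedSpace (Fin 2 → Fin 2 → PowerSeries K))
  have hc : CompactSpace (SpecialLinearGroup (Fin 2) (PowerSeries K)) :=
    SpecialLinearGroup.isClosedEmbedding_val.compactSpace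
  have ht : TotallyDisconnectedSpace (SpecialLinearGroup (Fin 2) (PowerSeries K)) :=
    inferInstanceAs (TotallyDisconnectedSpace (Subtype _))
  have h2 : T2Space (SpecialLinearGroup (Fin 2) (PowerSeries K)) :=
    SpecialLinearGroup.isClosedEmbedding_val.isEmbedding.t2Space
  have htwo : (2 : K) = 0 := CharTwo.two_eq_zero
  have hcard : Nat.card K = 2 ^ 2 := GaloisField.card 2 2 two_ne_zero
  have h4 : ∀ a : K, a ^ 4 = a := fun a => by
    have := Fintype.ofFinite K
    have h := FiniteField.pow_card a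
    rwa [← Nat.card_eq_fintype_card, hcard] at h
  obtain ⟨w, hw0, hw1⟩ : ∃ a : K, a ≠ 0 ∧ a ≠ 1 := by
    by_contra h
    push Not at h
    have : Nat.card K ≤ Nat.card Bool := by
      classical
      refine Nat.card_le_card_of_injective (fun x => decide (x = 0)) fun x y hxy => ?_
      by_cases hx : x = 0 <;> by_cases hy : y = 0 <;> simp_all
    simp [hcard] at this
  have hw : w ^ 2 + w + 1 = 0 :=
    mul_left_cancel₀ (mul_ne_zero hw0 (sub_ne_zero.2 hw1)) (by linear_combination h4 w)
  let σ := PowerSeries.map (frobenius K 2)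
  have hσ : ∀ a, σ (σ a) = a := fun a => by
    ext n
    simp [σ, frobenius_def, ← pow_mul, h4]
  have hX : σ PowerSeries.X = PowerSeries.X := PowerSeries.map_X _
  have h2R : (2 : PowerSeries K) = 0 := by
    rw [← map_ofNat (PowerSeries.C (R := K)) 2, htwo, map_zero]
  have hord : ∀ a, (σ a).order = a.order := fun a => le_antisymm
    (by conv_rhs => rw [← hσ a]
        exact PowerSeries.le_order_map _) (PowerSeries.le_order_map _)
  have han : ∀ a b, a * σ a = PowerSeries.X * (b * σ b) → a = 0 ∧ b = 0 := by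
    intro a b h
    have h := congrArg PowerSeries.order h
    simp only [PowerSeries.order_mul, hord, PowerSeries.order_X] at h
    rw [← PowerSeries.order_eq_top, ← PowerSeries.order_eq_top]
    generalize a.order = m at h
    generalize b.order = n at h
    cases m <;> cases n <;> norm_cast at h <;> first | omega | (simp; done) | simp at h
  have hσc : Continuous σ := by
    refine continuous_iff_continuousAt.2 fun a =>
      (PowerSeries.WithPiTopology.tendsto_iff_coeff_tendsto K _ _ _).2 fun d => ?_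
    simp only [σ, PowerSeries.coeff_map]
    exact (continuous_of_discreteTopology.comp
      (PowerSeries.WithPiTopology.continuous_coeff K d)).tendsto a
  have hent : ∀ i j, Continuous fun m : SpecialLinearGroup (Fin 2) (PowerSeries K) => m i j :=
    fun i j => (continuous_apply j).comp (SpecialLinearGroup.continuous_apply _ continuous_id i)
  have hcl : IsClosed (grp σ _ hσ hX : Set (SpecialLinearGroup (Fin 2) (PowerSeries K))) :=
    (isClosed_eq (hent 1 1) (hσc.comp (hent 0 0))).inter
      (isClosed_eq (hent 0 1) (continuous_const.mul (hσc.comp (hent 1 0))))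
  let W : PowerSeries K := PowerSeries.C w
  let s : PowerSeries K := PowerSeries.mk 1
  have hW : W ^ 2 + W + 1 = 0 := by simpa using congrArg (PowerSeries.C (R := K)) hw
  have hs : s * (1 - PowerSeries.X) = 1 := PowerSeries.mk_one_mul_one_sub_eq_one K
  have hσW : σ W = W ^ 2 := by simp [σ, W, frobenius_def]
  have hσs : σ s = s := by ext n; simp [σ, s]
  let a : grp σ _ hσ hX := ⟨⟨!![W, 0; 0, W ^ 2], by
    rw [det_fin_two_of]; linear_combination (W - 1) * hW⟩, by simp [hσW], by simp⟩
  let b : grp σ _ hσ hX := ⟨⟨!![s * (1 + W ^ 2 * PowerSeries.X), PowerSeries.X * (s * W);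
    s * W ^ 2, s * (1 + W * PowerSeries.X)], by
      rw [det_fin_two_of]
      linear_combination (s * (1 - PowerSeries.X) + 1) * hs +
        s ^ 2 * (PowerSeries.X * (2 - W) + PowerSeries.X ^ 2 * (W - 1)) * hW⟩, by
      simp only [of_apply, cons_val', cons_val_one, cons_val_fin_one, cons_val_zero, map_mul,
        map_add, map_pow, map_one, hσW, hσs, hX]
      linear_combination -(s * PowerSeries.X * W * (W - 1)) * hW, by
      simp only [of_apply, cons_val', cons_val_one, cons_val_fin_one, cons_val_zero, map_mul,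
        map_add, map_pow, map_one, hσW, hσs, hX]
      linear_combination -(s * PowerSeries.X * W * (W - 1)) * hW⟩
  let φ : grp σ _ hσ hX →* SpecialLinearGroup (Fin 2) K :=
    (SpecialLinearGroup.map PowerSeries.constantCoeff).comp (Subgroup.subtype _)
  have hφ : Continuous φ := (Continuous.specialLinearGroup_map
    (PowerSeries.WithPiTopology.continuous_constantCoeff K)).comp continuous_subtype_val
  have hs0 : PowerSeries.constantCoeff s = 1 := by simp [s]
  have ha : orderOf (φ a) = 3 := by
    refine orderOf_eq_prime ?_ fun h => hw1 ?_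
    · ext i j
      fin_cases i <;> fin_cases j <;> simp [φ, a, W, pow_succ, mul_apply, Fin.sum_univ_two]
      · linear_combination (w - 1) * hw
      · linear_combination (w - 1) * (w ^ 3 + 1) * hw
    · simpa [φ, a, W] using congrArg (fun m : SpecialLinearGroup (Fin 2) K => m 0 0) h
  have hb : orderOf (φ b) = 2 := by
    refine orderOf_eq_prime ?_ fun h => hw0 ?_
    · ext i j
      fin_cases i <;> fin_cases j <;> simp [φ, b, W, pow_succ, mul_apply, Fin.sum_univ_two, hs0]
      linear_combination w * w * htwo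
    · simpa [φ, b, W, hs0] using congrArg (fun m : SpecialLinearGroup (Fin 2) K => m 1 0) h
  refine ⟨grp σ _ hσ hX, inferInstance, inferInstance, inferInstance,
    isCompact_iff_compactSpace.1 hcl.isCompact, inferInstance, inferInstance, ⟨a, b, fun h => ?_⟩,
    csa h2R σ _ hσ hX han, fun p hp h => ?_⟩
  · have := congrArg (fun m => φ m 1 0) h
    simp [φ, a, b, W, mul_apply, Fin.sum_univ_two, hs0] at this
    have h3 : w * (w - 1) = 0 := by linear_combination this.resolve_right hw0
    simp [hw0, sub_eq_zero, hw1] at h3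
  · have hN := h ⟨⟨φ.ker, (isOpen_discrete {1}).preimage hφ⟩, inferInstanceAs φ.ker.Normal⟩
    have key : ∀ g, ∃ k, orderOf (φ g) ∣ p ^ k := fun g => by
      obtain ⟨k, hk⟩ := hN (g : _ ⧸ φ.ker)
      refine ⟨k, orderOf_dvd_of_pow_eq_one ?_⟩
      rw [← map_pow]
      exact (QuotientGroup.eq_one_iff _).1 hk
    obtain ⟨k, hk⟩ := key a
    obtain ⟨l, hl⟩ := key b
    rw [ha] at hk
    rw [hb] at hl
    have e1 := (Nat.prime_dvd_prime_iff_eq Nat.prime_three hp).1 (Nat.prime_three.dvd_of_dvd_pow hk)
    have e2 := (Nat.prime_dvd_prime_iff_eq Nat.prime_two hp).1 (Nat.prime_two.dvd_of_dvd_pow hl)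
    omega

end Pool.Agent.Results.MP_b9311c_al.CSA
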